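import Pool.Agent.W783.Perc.Fin

set_option autoImplicit false

open MeasureTheory Set Filter
open scoped Topology

/-!
Critical site percolation on `Z^(n+1)` with arbitrarily weak long-range bonds in one direction.

The vertices are those of `Z^(n+1) = Z x Z^n`; every vertex is open with probability `a`.  Open
nearest neighbours are adjacent; in addition two open vertices at distance `k ≥ 2` on a line
parallel to the first axis whose other coordinates are divisible by `m` are adjacent with
probability `1 - exp (-β k^(-s))`, `1 < s < 2`, independently.  For every `β > 0` the critical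
point `a_c(β)` lies in `(0, 1)`, there is no percolation at `a_c(β)`, and `a_c(β)` tends to the
critical point of site percolation on `Z^(n+1)` as `β` tends to `0`.
-/

namespace Pool.Agent.Results.MP_e13933_pr.AbsenceWeakLongRange

open Pool.Agent.W783.PC

/-- No percolation at criticality for site percolation on `Z^(n+1)` with weak long-range bonds in
one direction; the critical points converge to that of `Z^(n+1)`. -/
theorem result (n : ℕ) (hn : 1 ≤ n) (m : ℕ) (hm : 1 ≤ m) (s : ℝ) (hs : 1 < s) (hs2 : s < 2) :
    (∀ β : NNReal, 0 < β →
      0 < acS n m s β ∧ acS n m s β < 1 ∧ theta n (acS n m s β) 1 β s m = 0) ∧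
    Tendsto (fun β : NNReal => (acS n m s β : ℝ)) (𝓝 0) (𝓝 (acZ n : ℝ)) :=
  site_main hn hm hs hs2

end Pool.Agent.Results.MP_e13933_pr.AbsenceWeakLongRange
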