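import Pool.Agent.W24.Perc.Site

/-!
# Critical site percolation on `ℤ^d`: a polynomial lower bound for the connection probability of any
two points inside a box of comparable size
-/

set_option autoImplicit false

open MeasureTheory

namespace Pool.Agent.Results.MP_e13933_pr.CriticalConnectivity

/-- site percolation on `ℤ^d`: every site is open with probability `p`, independently -/
noncomputable def perc (d : ℕ) (p : NNReal) (hp : p ≤ 1) : Measure ((Fin d → ℤ) → Bool) :=
  Measure.infinitePi fun _ => (PMF.bernoulli p hp).toMeasure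

/-- the graph of the neighbouring pairs of open sites of `S` -/
def openIn {d : ℕ} (ω : (Fin d → ℤ) → Bool) (S : Set (Fin d → ℤ)) :
    SimpleGraph (Fin d → ℤ) :=
  SimpleGraph.fromRel fun x z => x ∈ S ∧ z ∈ S ∧ ω x = true ∧ ω z = true ∧
    ∃ i : Fin d, z = x + Pi.single i 1

/-- the percolation probability -/
noncomputable def theta (d : ℕ) (p : NNReal) (hp : p ≤ 1) : ℝ :=
  (perc d p hp).real {ω | {y | (openIn ω Set.univ).Reachable 0 y}.Infinite}

/-- the critical point -/
noncomputable def pc (d : ℕ) : NNReal := sSup {p : NNReal | ∃ hp : p ≤ 1, theta d p hp = 0}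

theorem pc_le_one (d : ℕ) : pc d ≤ 1 := csSup_le' (by rintro p ⟨hp, -⟩; exact hp)

/-- the box of radius `r` around `x` -/
def box {d : ℕ} (x : Fin d → ℤ) (r : ℕ) : Set (Fin d → ℤ) := {z | ∀ i, |z i - x i| ≤ r}

theorem result (d : ℕ) (hd : 1 ≤ d) : ∃ c : ℝ, 0 < c ∧ ∃ C : ℕ, ∀ m : ℕ, 1 ≤ m →
    ∀ x y : Fin d → ℤ, (∀ i, |y i - x i| ≤ m) →
      c / (m : ℝ) ^ (d * (d - 1)) ≤ (perc d (pc d) (pc_le_one d)).real
        {ω | ω x = true ∧ ω y = true ∧ (openIn ω (box x (C * m))).Reachable x y} :=
  Pool.Agent.W24.Perc.Site.final d hd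

end Pool.Agent.Results.MP_e13933_pr.CriticalConnectivity
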