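import Pool.Agent.W870.PD.Pos
import Pool.Agent.W24.Perc.For870

/-!
# Critical site percolation on `ℤ^d`, `d ≥ 3`: boxes are disconnected from infinity with at least
polynomially small probability
-/

set_option autoImplicit false

open MeasureTheory

namespace Pool.Agent.Results.MP_e13933_pr.DisconnectionPolynomial

/-- the lattice `ℤ^d`: neighbours are at distance one -/
def lattice (d : ℕ) : SimpleGraph (Fin d → ℤ) where
  Adj x y := ∑ i, |x i - y i| = 1
  symm := ⟨fun x y h => by rw [← h]; exact Finset.sum_congr rfl fun i _ => abs_sub_comm _ _⟩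
  loopless := ⟨fun x h => by simp at h⟩

/-- site percolation: every site is open with probability `p`, independently -/
noncomputable def perc (d : ℕ) (p : NNReal) (hp : p ≤ 1) : Measure ((Fin d → ℤ) → Bool) :=
  Measure.infinitePi fun _ => (PMF.bernoulli p hp).toMeasure

/-- the graph of the pairs of neighbouring open sites of `S` -/
def openIn {d : ℕ} (ω : (Fin d → ℤ) → Bool) (S : Set (Fin d → ℤ)) :
    SimpleGraph (Fin d → ℤ) where
  Adj x y := (lattice d).Adj x y ∧ x ∈ S ∧ y ∈ S ∧ ω x = true ∧ ω y = true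
  symm := ⟨fun x y h => ⟨h.1.symm, h.2.2.1, h.2.1, h.2.2.2.2, h.2.2.2.1⟩⟩
  loopless := ⟨fun x h => (lattice d).loopless.irrefl x h.1⟩

/-- the box of radius `r` -/
def box (d r : ℕ) : Set (Fin d → ℤ) := {x | ∀ i, |x i| ≤ r}

/-- the boundary of the box of radius `r` -/
def bdry (d r : ℕ) : Set (Fin d → ℤ) := {x | x ∈ box d r ∧ ∃ i, |x i| = r}

/-- percolation probability -/
noncomputable def theta (d : ℕ) (p : NNReal) (hp : p ≤ 1) : ℝ :=
  (perc d p hp).real {ω | {y | (openIn ω Set.univ).Reachable 0 y}.Infinite}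

/-- critical point -/
noncomputable def pc (d : ℕ) : NNReal := sSup {p : NNReal | ∃ hp : p ≤ 1, theta d p hp = 0}

theorem pc_le_one (d : ℕ) : pc d ≤ 1 := csSup_le' fun _ h => h.1

theorem result (d : ℕ) (hd : 3 ≤ d) :
    ∃ C : ℕ, ∀ k n : ℕ, 2 ≤ k → k ^ C ≤ n →
      1 / (k : ℝ) ^ C ≤ (perc d (pc d) (pc_le_one d)).real
        {ω | ∀ x ∈ box d k, ∀ y ∈ bdry d n,
          ¬ (ω x = true ∧ ω y = true ∧ (openIn ω (box d n)).Reachable x y)} := by
  have e1 : ∀ r : ℕ, box d r = ((Pool.Agent.W804.HP.bx (0 : Fin d → ℤ) r :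
      Finset (Fin d → ℤ)) : Set (Fin d → ℤ)) := by
    intro r
    ext x
    rw [Finset.mem_coe, Pool.Agent.W804.HP.mem_bx]
    simp [box]
  have e2 : ∀ r : ℕ, bdry d r = ((Pool.Agent.W804.HP.sph (0 : Fin d → ℤ) r :
      Finset (Fin d → ℤ)) : Set (Fin d → ℤ)) := by
    intro r
    ext x
    rw [Finset.mem_coe, Pool.Agent.W804.HP.mem_sph]
    have h : x ∈ box d r ↔ x ∈ Pool.Agent.W804.HP.bx (0 : Fin d → ℤ) r := by
      rw [e1]; exact Iff.rfl
    show (x ∈ box d r ∧ ∃ i, |x i| = r) ↔ _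
    rw [h]
    simp
  have hpol := Pool.Agent.W24.Perc.For870.polS_crit d (by omega)
  obtain ⟨C, hC⟩ := Pool.Agent.W870.PD.mainS hd
    ⟨Pool.Agent.W870.PD.pos_of_polS d _ _ hpol, hpol⟩
  refine ⟨C, fun k n hk hn => (hC k n hk hn).trans (le_of_eq ?_)⟩
  have h1 : {ω : (Fin d → ℤ) → Bool | ∀ x ∈ box d k, ∀ y ∈ bdry d n,
      ¬ (ω x = true ∧ ω y = true ∧ (openIn ω (box d n)).Reachable x y)} =
      Pool.Agent.W870.PD.VoidS d k n := by
    simp only [e1, e2, Finset.mem_coe]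
    rfl
  rw [h1]
  rfl

end Pool.Agent.Results.MP_e13933_pr.DisconnectionPolynomial
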