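import Pool.Agent.W804.HP.SiteMain

/-!
# Site percolation on `ℤ^d`: positive percolation probability is equivalent to long range order
in boxes of polynomial size, and it implies polynomial quantitative uniqueness
-/

set_option autoImplicit false

open MeasureTheory

namespace Pool.Agent.Results.MP_e13933_pr.LongRangeOrder

/-- the lattice `ℤ^d`: neighbours are at distance one -/
def lattice (d : ℕ) : SimpleGraph (Fin d → ℤ) where
  Adj x y := ∑ i, |x i - y i| = 1
  symm := ⟨fun x y h => by rw [← h]; exact Finset.sum_congr rfl fun i _ => abs_sub_comm _ _⟩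
  loopless := ⟨fun x h => by simp at h⟩

/-- site percolation: every site is open with probability `p`, independently -/
noncomputable def perc (d : ℕ) (p : NNReal) (hp : p ≤ 1) : Measure ((Fin d → ℤ) → Bool) :=
  Measure.infinitePi fun _ => (PMF.bernoulli p hp).toMeasure

/-- the graph of the neighbouring pairs of open sites of `S` -/
def openIn {d : ℕ} (ω : (Fin d → ℤ) → Bool) (S : Set (Fin d → ℤ)) :
    SimpleGraph (Fin d → ℤ) where
  Adj x y := (lattice d).Adj x y ∧ x ∈ S ∧ y ∈ S ∧ ω x = true ∧ ω y = true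
  symm := ⟨fun x y h => ⟨h.1.symm, h.2.2.1, h.2.1, h.2.2.2.2, h.2.2.2.1⟩⟩
  loopless := ⟨fun x h => (lattice d).loopless.irrefl x h.1⟩

/-- the box of radius `r` -/
def box (d r : ℕ) : Set (Fin d → ℤ) := {x | ∀ i, |x i| ≤ r}

/-- the boundary of the box of radius `r` -/
def bdry (d r : ℕ) : Set (Fin d → ℤ) := {x | x ∈ box d r ∧ ∃ i, |x i| = r}

/-- percolation probability -/
noncomputable def theta (d : ℕ) (p : NNReal) (hp : p ≤ 1) : ℝ :=
  (perc d p hp).real {ω | {y | (openIn ω Set.univ).Reachable 0 y}.Infinite}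

theorem result (d : ℕ) (hd : 1 ≤ d) (p : NNReal) (hp : p ≤ 1) :
    (0 < theta d p hp ↔
      ∃ (A : ℕ) (c : ℝ), 0 < c ∧ ∀ n N : ℕ, 1 ≤ n → A * n ^ (4 * d - 2) ≤ N →
        ∀ x ∈ box d n, ∀ y ∈ box d n,
          c ≤ (perc d p hp).real
            {ω | ω x = true ∧ ω y = true ∧ (openIn ω (box d N)).Reachable x y}) ∧
    (0 < theta d p hp →
      ∃ B : ℝ, ∀ n N : ℕ, 1 ≤ n → 1 ≤ N →
        (perc d p hp).real
          {ω | ∃ x ∈ box d n, ∃ y ∈ box d n,
            (ω x = true ∧ ∃ u ∈ bdry d N, ω u = true ∧ (openIn ω (box d N)).Reachable x u) ∧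
            (ω y = true ∧ ∃ v ∈ bdry d N, ω v = true ∧ (openIn ω (box d N)).Reachable y v) ∧
            ¬ (openIn ω (box d N)).Reachable x y} ≤
          B * (n : ℝ) ^ (4 * d ^ 2) / Real.sqrt N) := by
  have e1 : ∀ r : ℕ, box d r = ((Pool.Agent.W804.HP.bx (0 : Fin d → ℤ) r :
      Finset (Fin d → ℤ)) : Set (Fin d → ℤ)) := by
    intro r
    ext x
    rw [Finset.mem_coe, Pool.Agent.W804.HP.mem_bx]
    simp [box]
  have e2 : ∀ r : ℕ, bdry d r = ((Pool.Agent.W804.HP.sph (0 : Fin d → ℤ) r :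
      Finset (Fin d → ℤ)) : Set (Fin d → ℤ)) := by
    intro r
    ext x
    rw [Finset.mem_coe, Pool.Agent.W804.HP.mem_sph]
    have h : x ∈ box d r ↔ x ∈ Pool.Agent.W804.HP.bx (0 : Fin d → ℤ) r := by
      rw [e1]; exact Iff.rfl
    show (x ∈ box d r ∧ ∃ i, |x i| = r) ↔ _
    rw [h]
    simp
  have e3 : ∀ (ω : (Fin d → ℤ) → Bool) (S : Set (Fin d → ℤ)),
      openIn ω S = Pool.Agent.W804.HP.openS ω S := fun ω S => rfl
  have h := Pool.Agent.W804.HP.site_main d hd p hp
  unfold theta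
  simp only [e1, e2, e3, Finset.mem_coe]
  exact h

end Pool.Agent.Results.MP_e13933_pr.LongRangeOrder
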